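import Pool.Agent.W8.ST.Stm

/-!
Project ST (MP_7e83e7_gt): the exchange of two coordinates together with a reflection.
-/

open scoped ContDiff
open Pool.Agent.W8.ST

namespace Pool.Agent.W118.ST

noncomputable section

/-- `jj` as a continuous linear map -/
def JL : V 4 →L[ℝ] V 4 :=
  LinearMap.toContinuousLinearMap
    { toFun := fun x => ![-x 0, x 2, x 1, x 3]
      map_add' := by
        intro x y; ext i; fin_cases i <;> simp [add_comm]
      map_smul' := by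
        intro c x; ext i; fin_cases i <;> simp }

theorem JL_apply (x : V 4) : JL x = jj x := rfl

theorem jj_eq : jj = (JL : V 4 → V 4) := rfl

theorem pd_comp (u : V 4 → ℝ) (hu : ContDiff ℝ ∞ u) (i : Fin 4) (x : V 4) :
    pd i (u ∘ jj) x = fderiv ℝ u (jj x) (jj (Pi.single i 1)) := by
  unfold pd
  have h1 : DifferentiableAt ℝ u (JL x) := (hu.differentiable (by simp)).differentiableAt
  have h2 : HasFDerivAt (u ∘ jj) ((fderiv ℝ u (JL x)).comp JL) x := by
    rw [jj_eq]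
    exact h1.hasFDerivAt.comp x JL.hasFDerivAt
  rw [h2.fderiv]
  rfl

theorem jj_s0 : jj (Pi.single 0 1) = -(Pi.single 0 1 : V 4) := by
  ext i; fin_cases i <;> simp [jj, Pi.single_apply]

theorem jj_s1 : jj (Pi.single 1 1) = (Pi.single 2 1 : V 4) := by
  ext i; fin_cases i <;> simp [jj, Pi.single_apply]

theorem jj_s2 : jj (Pi.single 2 1) = (Pi.single 1 1 : V 4) := by
  ext i; fin_cases i <;> simp [jj, Pi.single_apply]

theorem jj_s3 : jj (Pi.single 3 1) = (Pi.single 3 1 : V 4) := by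
  ext i; fin_cases i <;> simp [jj, Pi.single_apply]

theorem pd0 (u : V 4 → ℝ) (hu : ContDiff ℝ ∞ u) : pd 0 (u ∘ jj) = -(pd 0 u ∘ jj) := by
  ext x
  rw [pd_comp u hu, jj_s0, map_neg]; rfl

theorem pd1 (u : V 4 → ℝ) (hu : ContDiff ℝ ∞ u) : pd 1 (u ∘ jj) = pd 2 u ∘ jj := by
  ext x
  rw [pd_comp u hu, jj_s1]; rfl

theorem pd2 (u : V 4 → ℝ) (hu : ContDiff ℝ ∞ u) : pd 2 (u ∘ jj) = pd 1 u ∘ jj := by
  ext x
  rw [pd_comp u hu, jj_s2]; rfl

theorem pd3 (u : V 4 → ℝ) (hu : ContDiff ℝ ∞ u) : pd 3 (u ∘ jj) = pd 3 u ∘ jj := by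
  ext x
  rw [pd_comp u hu, jj_s3]; rfl

theorem pd_smooth (u : V 4 → ℝ) (hu : ContDiff ℝ ∞ u) (i : Fin 4) : ContDiff ℝ ∞ (pd i u) := by
  unfold pd
  exact (hu.fderiv_right (m := ∞) (by simp)).clm_apply contDiff_const

theorem pd_neg (u : V 4 → ℝ) (i : Fin 4) : pd i (-u) = -(pd i u) := by
  ext x
  simp [pd, fderiv_neg]

/-- the derivative in a direction of the strip of a function which vanishes on the strip -/
theorem pd_zero (f : V 4 → ℝ) (hf : ContDiff ℝ ∞ f) (h : ∀ x ∈ strip 3, f x = 0) (i : Fin 3)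
    (x : V 4) (hx : x ∈ strip 3) : pd i.succ f x = 0 := by
  unfold pd
  have h1 : DifferentiableAt ℝ f x := (hf.differentiable (by simp)).differentiableAt
  have h2 : HasDerivAt (fun t : ℝ => x + t • (Pi.single i.succ 1 : V 4)) (Pi.single i.succ 1) 0 := by
    have h3 := ((hasDerivAt_id (0 : ℝ)).smul_const (Pi.single i.succ 1 : V 4)).const_add x
    simpa using h3
  have h4 : HasDerivAt (fun t : ℝ => f (x + t • (Pi.single i.succ 1 : V 4)))
      (fderiv ℝ f x (Pi.single i.succ 1)) 0 := by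
    have h5 : HasFDerivAt f (fderiv ℝ f x) (x + (0 : ℝ) • (Pi.single i.succ 1 : V 4)) := by
      simpa using h1.hasFDerivAt
    exact h5.comp_hasDerivAt (0 : ℝ) h2
  have h6 : (fun t : ℝ => f (x + t • (Pi.single i.succ 1 : V 4))) = fun _ => (0 : ℝ) := by
    ext t
    apply h
    have : (x + t • (Pi.single i.succ 1 : V 4)) 0 = x 0 := by
      simp [Pi.single_apply, Fin.succ_ne_zero i |>.symm]
    show |(x + t • (Pi.single i.succ 1 : V 4)) 0| ≤ 1
    rw [this]; exact hx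
  rw [h6] at h4
  exact h4.unique (hasDerivAt_const _ _)

theorem q_neg (t : ℝ) : q (-t) = (q t)⁻¹ := by
  unfold q
  rw [← Real.exp_neg]
  congr 1
  ring

theorem jj_strip {x : V 4} (hx : x ∈ strip 3) : jj x ∈ strip 3 := by
  show |jj x 0| ≤ 1
  have : jj x 0 = -x 0 := rfl
  rw [this, abs_neg]; exact hx

theorem jj_add_single (x : V 4) (i : Fin 3) (c : ℝ) :
    ∃ j : Fin 3, jj (x + Pi.single i.succ c) = jj x + Pi.single j.succ c := by
  fin_cases i
  · refine ⟨1, ?_⟩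
    ext k; fin_cases k <;> simp [jj, Pi.single_apply]
  · refine ⟨0, ?_⟩
    ext k; fin_cases k <;> simp [jj, Pi.single_apply]
  · refine ⟨2, ?_⟩
    ext k; fin_cases k <;> simp [jj, Pi.single_apply]

theorem OpJ_proof : OpJ := by
  refine ⟨?_, fun u hu => ⟨pd1 u hu, pd2 u hu, pd3 u hu⟩⟩
  intro sig u hS hd
  obtain ⟨hu, hper, heq, hbd⟩ := hS
  have hd3 : ∀ x ∈ strip 3, pd 3 u x = 0 := by
    rcases hd with h | h
    · exact fun x hx => (h x hx).2
    · exact fun x hx => (h x hx).2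
  have hd33 : ∀ x ∈ strip 3, pd 3 (pd 3 u) x = 0 := fun x hx =>
    pd_zero (pd 3 u) (pd_smooth u hu 3) hd3 2 x hx
  have hJ : ContDiff ℝ ∞ (jj : V 4 → V 4) := JL.contDiff
  refine ⟨hu.comp hJ, ?_, ?_, ?_⟩
  · intro x hx i
    obtain ⟨j, hj⟩ := jj_add_single x i (2 * Real.pi)
    show u (jj (x + Pi.single i.succ (2 * Real.pi))) = u (jj x)
    rw [hj]
    exact hper (jj x) (jj_strip hx) j
  · intro x hx
    have e0 : pd 0 (pd 0 (u ∘ jj)) x = pd 0 (pd 0 u) (jj x) := by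
      rw [pd0 u hu, pd_neg, pd0 _ (pd_smooth u hu 0)]
      simp
    have e1 : pd 1 (pd 1 (u ∘ jj)) x = pd 2 (pd 2 u) (jj x) := by
      rw [pd1 u hu, pd1 _ (pd_smooth u hu 2)]; rfl
    have e2 : pd 2 (pd 2 (u ∘ jj)) x = pd 1 (pd 1 u) (jj x) := by
      rw [pd2 u hu, pd2 _ (pd_smooth u hu 1)]; rfl
    have e3 : pd 3 (pd 3 (u ∘ jj)) x = pd 3 (pd 3 u) (jj x) := by
      rw [pd3 u hu, pd3 _ (pd_smooth u hu 3)]; rfl
    have h := heq (jj x) (jj_strip hx)
    have h33 := hd33 (jj x) (jj_strip hx)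
    have hq : q (jj x 0) = (q (x 0))⁻¹ := q_neg (x 0)
    rw [hq, inv_inv] at h
    rw [e0, e1, e2, e3, h33]
    rw [h33] at h
    linarith
  · intro x hx
    have h0 : |jj x 0| = 1 := by
      have : jj x 0 = -x 0 := rfl
      rw [this, abs_neg]; exact hx
    have h := hbd (jj x) h0
    have h1 : jj x 0 = -x 0 := rfl
    rw [h1] at h
    rw [pd0 u hu]
    show x 0 * (-(pd 0 u (jj x))) = sig * u (jj x)
    linarith

end

end Pool.Agent.W118.ST
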